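import Pool.Agent.W458.FJ.Stm

set_option autoImplicit false

namespace Pool.Agent.W210.FJ.REG

open MvPolynomial Pool.Agent.W458.FJ

lemma dvd_of_nz {ι : Type} {a : ι → ℕ} {d h : ℕ} {f : MvPolynomial ι ℂ}
    (hf : IsWeightedHomogeneous a f d) {K : Finset ι} (hK : ∀ i ∈ K, h ∣ a i) (hn : nz f K) :
    h ∣ d := by
  obtain ⟨m, hm, hmK⟩ := hn
  have h1 := hf (mem_support_iff.mp hm)
  rw [← h1, Finsupp.weight_apply, Finsupp.sum]
  refine Finset.dvd_sum fun i hi => ?_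
  rw [smul_eq_mul]
  exact (hK i (hmK hi)).mul_left _

theorem main : GEO → REG := by
  classical
  intro hGEO ι _ _ a d₁ d₂ f₁ f₂ hS h hh
  have hmem : ∀ i ∈ (Finset.univ.filter fun i => h ∣ a i), h ∣ a i := fun i hi =>
    (Finset.mem_filter.mp hi).2
  have hno : ∀ v : ι → ℂ, v ≠ 0 → (∀ i, i ∉ (Finset.univ.filter fun i => h ∣ a i) → v i = 0) →
      ¬ (eval v f₁ = 0 ∧ eval v f₂ = 0) := by
    rintro v hv hsupp ⟨h1, h2⟩
    have := hS.hgcd v hv h1 h2 h (fun i hi => by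
      by_contra hc
      exact hi (hsupp i (fun hm => hc (hmem i hm))))
    omega
  show (Finset.univ.filter fun i => h ∣ a i).card ≤ dl d₁ d₂ h
  rcases Finset.eq_empty_or_nonempty (Finset.univ.filter fun i => h ∣ a i) with he | hne
  · rw [he]
    simp
  · obtain ⟨g1, g2, g3⟩ := hGEO ι a d₁ d₂ f₁ f₂ hS _ hne hno
    have e1 : nz f₁ (Finset.univ.filter fun i => h ∣ a i) → h ∣ d₁ := dvd_of_nz hS.hf₁ hmem
    have e2 : nz f₂ (Finset.univ.filter fun i => h ∣ a i) → h ∣ d₂ := dvd_of_nz hS.hf₂ hmem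
    unfold dl
    by_cases hc : 2 ≤ (Finset.univ.filter fun i => h ∣ a i).card
    · obtain ⟨k1, k2⟩ := g2 hc
      rw [if_pos (e1 k1), if_pos (e2 k2)]
      exact g3
    · rcases g1 with k | k
      · rw [if_pos (e1 k)]
        omega
      · rw [if_pos (e2 k)]
        omega

end Pool.Agent.W210.FJ.REG
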